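import Pool.Agent.Helper66.DS.Defs

/-! # DS module Dom1: the top-`r` sum dominates a weighted sum -/

set_option autoImplicit false

namespace Pool.Agent.Helper66.DS

open Finset

theorem top_weights {N : ℕ} (y w : Fin N → ℝ) (hy : ∀ i, 0 ≤ y i) (hw0 : ∀ i, 0 ≤ w i)
    (hw1 : ∀ i, w i ≤ 1) (r : ℕ) (hr : ∑ i, w i = r) :
    ∃ J : Finset (Fin N), J.card = r ∧ ∑ i, w i * y i ≤ ∑ i ∈ J, y i := by
  classical
  have hrN : r ≤ N := by
    have h1 : (r : ℝ) ≤ N := by
      rw [← hr]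
      calc ∑ i, w i ≤ ∑ _i : Fin N, (1 : ℝ) := Finset.sum_le_sum fun i _ => hw1 i
        _ = N := by simp
    exact_mod_cast h1
  have hne : (powersetCard r (univ : Finset (Fin N))).Nonempty :=
    powersetCard_nonempty.2 (by simpa using hrN)
  obtain ⟨J, hJ, hmax⟩ := exists_max_image _ (fun J : Finset (Fin N) => ∑ i ∈ J, y i) hne
  have hJc : J.card = r := (mem_powersetCard.1 hJ).2
  refine ⟨J, hJc, ?_⟩
  have hswap : ∀ i ∈ J, ∀ j, j ∉ J → y j ≤ y i := by
    intro i hi j hj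
    have hj' : j ∉ J.erase i := fun h => hj (mem_of_mem_erase h)
    have h1 : insert j (J.erase i) ∈ powersetCard r (univ : Finset (Fin N)) := by
      rw [mem_powersetCard]
      refine ⟨subset_univ _, ?_⟩
      rw [card_insert_of_notMem hj', card_erase_of_mem hi, hJc]
      have : 0 < J.card := card_pos.2 ⟨i, hi⟩
      omega
    have h2 := hmax _ h1
    change ∑ i ∈ insert j (J.erase i), y i ≤ ∑ i ∈ J, y i at h2
    rw [sum_insert hj'] at h2
    have h3 := Finset.add_sum_erase J y hi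
    linarith
  obtain ⟨t, ht1, ht2, ht3⟩ : ∃ t : ℝ, (∀ i ∈ J, t ≤ y i) ∧ (∀ i, i ∉ J → y i ≤ t ∨ w i = 0) ∧
      0 ≤ t := by
    rcases J.eq_empty_or_nonempty with h | h
    · refine ⟨0, by simp [h], fun i _ => Or.inr ?_, le_rfl⟩
      have hr0 : r = 0 := by rw [← hJc, h]; rfl
      rw [hr0, Nat.cast_zero] at hr
      exact (Finset.sum_eq_zero_iff_of_nonneg (fun i _ => hw0 i)).1 hr i (mem_univ i)
    · obtain ⟨i0, hi0, hmin⟩ := exists_min_image J y h
      exact ⟨y i0, hmin, fun i hi => Or.inl (hswap i0 hi0 i hi), hy i0⟩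
  have hind : ∑ i ∈ J, y i = ∑ i, (if i ∈ J then (1 : ℝ) else 0) * y i := by
    simp [Finset.sum_ite_mem]
  have hind1 : ∑ i, (if i ∈ J then (1 : ℝ) else 0) = r := by
    simp [Finset.sum_ite_mem, hJc]
  have hkey : ∑ i, (w i - (if i ∈ J then (1 : ℝ) else 0)) * (y i - t) ≤ 0 := by
    refine Finset.sum_nonpos fun i _ => ?_
    by_cases hi : i ∈ J
    · rw [if_pos hi]
      exact mul_nonpos_of_nonpos_of_nonneg (by linarith [hw1 i]) (by linarith [ht1 i hi])
    · rw [if_neg hi, sub_zero]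
      rcases ht2 i hi with h | h
      · exact mul_nonpos_of_nonneg_of_nonpos (hw0 i) (by linarith)
      · rw [h, zero_mul]
  have hexp : ∑ i, (w i - (if i ∈ J then (1 : ℝ) else 0)) * (y i - t) =
      (∑ i, w i * y i - ∑ i, (if i ∈ J then (1 : ℝ) else 0) * y i) -
        (∑ i, w i - ∑ i, (if i ∈ J then (1 : ℝ) else 0)) * t := by
    rw [← Finset.sum_sub_distrib, ← Finset.sum_sub_distrib, Finset.sum_mul,
      ← Finset.sum_sub_distrib]
    refine Finset.sum_congr rfl fun i _ => ?_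
    ring
  rw [hexp, hr, hind1, sub_self, zero_mul, sub_zero] at hkey
  rw [hind]
  linarith

end Pool.Agent.Helper66.DS
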